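import Pool.Agent.MP_4a6971_al.Mg.Main2

namespace Pool.Agent.Results.MP_4a6971_al.AllGenerators

open Pool.Agent.MP_4a6971_al Filter Topology

/-- Let a group act by isometries on a hyperbolic space with a loxodromic WPD element. The kernel
of any surjection onto `Sp(2g, ℤ)` has density zero for every finite generating set. -/
theorem result (g : ℕ) (hg : 1 ≤ g) (G : Type) [Group G]
    (π : G →* Matrix.symplecticGroup (Fin g) ℤ) (hπ : Function.Surjective π)
    (X : Type) [MetricSpace X] [MulAction G X] [IsIsometricSMul G X] (hX : IsHyperbolic X)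
    (a : G) (h1 : IsLoxodromic X a) (h2 : IsWPD X a)
    (S : Finset G) (hS : Subgroup.closure (S : Set G) = ⊤) :
    Tendsto (fun r : ℕ => ((wordBall (S : Set G) r ∩ (π.ker : Set G)).ncard : ℝ) /
      ((wordBall (S : Set G) r).ncard : ℝ)) atTop (𝓝 0) :=
  have := infinite_symplectic (l := Fin g) ⟨0, hg⟩
  let ⟨_, _, h⟩ := good_of_wpd hX h1 h2
  H66.density_of_good h π hπ (finite_centralizer_symplectic (Fin g)) hS

end Pool.Agent.Results.MP_4a6971_al.AllGenerators
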