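import Pool.Agent.MP_4a6971_al.PingPong

namespace Pool.Agent.Results.MP_4a6971_al.Enlarged

open Pool.Agent.MP_4a6971_al

/-- For any group mapping onto `Sp(2g, ℤ)`, every finite subset can be enlarged to a finite subset
for whose word balls the kernel is exponentially negligible. -/
theorem result (g : ℕ) (hg : 1 ≤ g) (G : Type) [Group G]
    (π : G →* Matrix.symplecticGroup (Fin g) ℤ) (hπ : Function.Surjective π) (S : Finset G) :
    ∃ S' : Finset G, S ⊆ S' ∧ ∃ θ : ℝ, 0 < θ ∧ θ < 1 ∧ ∀ r : ℕ,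
      ((wordBall (S' : Set G) r ∩ (π.ker : Set G)).ncard : ℝ) ≤
        θ ^ r * ((wordBall (S' : Set G) r).ncard : ℝ) :=
  negligible_of_tables π hπ (table_symplectic ⟨0, hg⟩) S

end Pool.Agent.Results.MP_4a6971_al.Enlarged
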