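import Pool.Agent.MP_4a6971_al.H83.Final

namespace Pool.Agent.Results.MP_4a6971_al.TorelliDensity

open Pool.Agent.MP_4a6971_al Pool.Agent.MP_4a6971_al.Mcg Filter Topology

/-- The Torelli group has density zero in the mapping class group of the closed orientable surface
of genus `g`, for every `g ≥ 2` and every finite generating set. -/
theorem result (g : ℕ) (hg : 2 ≤ g) (S : Finset (MappingClassGroup (Surface g)))
    (hS : Subgroup.closure (S : Set (MappingClassGroup (Surface g))) = ⊤) :
    Tendsto (fun r : ℕ =>
      ((wordBall (S : Set (MappingClassGroup (Surface g))) r ∩ TorelliGroup (Surface g)).ncard : ℝ) /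
      ((wordBall (S : Set (MappingClassGroup (Surface g))) r).ncard : ℝ)) atTop (𝓝 0) :=
  H83.density hg S hS

end Pool.Agent.Results.MP_4a6971_al.TorelliDensity
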